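import Pool.Agent.N18.KM.Base
import Pool.Agent.N53.CF.All
import Pool.Agent.N676.OR.Diag
import Pool.Agent.Results.MP_f80667_ag.MetricSequences

/-!
# Zero-cycles of degree zero on twists of cyclic coverings, for the twists by the linear forms of the
# convergents of continued fraction normal numbers

Let `b y ^ 2 = ∏ k, G k (z, w)` be a hyperelliptic curve `D` over `ℚ`, where the `G k` are the
homogenisations of polynomials `g k` with integral coefficients, of even degrees, pairwise coprime.
Let `h` be a nonconstant polynomial with integral coefficients, coprime to the `g k`, and `H` its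
homogenisation (`Admissible`). For an integer `a` and an even `m ∣ deg h` consider the curve

  `C a : b y ^ 2 = ∏ k, G k (z, w)`, `a x ^ m = H (z, w)`,

a cyclic covering of `D`; for different `a` these coverings are twists of each other. The genus is
arbitrary, and nothing is known about the Tate-Shafarevich groups of the Jacobians. (All these are
definitions of the starting result `DegreeZeroComplexOfTwists`, which is about 100% of the squarefree
integers `|a| ≤ X`, for one family `(b, g, h)`.)

The functions `G k` have even divisors on `D`, so the value `∏ N (G k (P i)) ^ c i` modulo squares of a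
zero-cycle `∑ c i P i` over a field depends only on the class in `CH₀ / 2`, and the quaternion algebras
`(G k, e)`, `e` a nonzero integer, belong to the Brauer group of `C a`. An adelic zero-cycle is orthogonal
if the sum of the local invariants of each of these classes is zero. The integer `a` has the property
`GoodTwist` (starting result `MetricSequences`) if for all even `m ∣ deg h`, `m > 0`, and all orthogonal
adelic zero-cycles `(z_v)` of even degree (for instance of degree zero) on `C a`:

* (general) there are squarefree integers `n k` with `G k (z_v) = n k` in `ℚ_v* / ℚ_v*²` for all `k` and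
  all places `v`, and the family `n` is persistent: `∏ n k` is a square, and for every automorphism
  `σ` of the field of algebraic numbers there is a `σ`-stable set of zeros `β` of `h`, of even
  cardinality, with `∏ β, g k (β) = n k * y k ^ 2`, `σ (y k) = y k`;
* if the zeros of `h` are one or two rational numbers `α₁`, `α₂` (with any multiplicities) and
  `b ∏ g k (α₁)` is a square, there is a zero-cycle `z` of degree zero on `C a` over `ℚ` with
  `G k (z) = G k (z_v)` in `ℚ_v* / ℚ_v*²` for all `k` and all `v`;
* if `h` has at most two zeros `x₁`, `x₂`, rational or conjugate, and `∏ k, g k (x₁) g k (x₂)` is not a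
  square in `ℚ`, then `G k (z_v) = 1` in `ℚ_v* / ℚ_v*²` for all `k` and all `v`;
* the same holds if the zeros of `h` are square roots of `A`, `B`, `A B`, where `A`, `B`, `A B` are
  rational and not squares, and the values of the `g k` at the zeros depend only on the squares of the
  zeros.

So the complex for zero-cycles of degree zero modulo 2 is exact up to elements of the kernels of the maps
`(G k)` for these twists, without assumptions on Tate-Shafarevich groups.

**Theorem.** Let `α` in `(0, 1)` be a continued fraction normal number (`IsNormal`: irrational, and its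
orbit under the Gauss map `x ↦ 1/x - ⌊1/x⌋` is distributed according to the Gauss measure
`dx / ((1 + x) log 2)`), and let `p_n / q_n` be its convergents. There is ONE set `E` of natural density
zero such that for ALL families `(b, g, h)` and ALL integers `u`, `v`, not both zero, the twist by
`a = u p_k + v q_k` has the property `GoodTwist` for all but finitely many `k ∉ E`.

Almost all numbers in `(0, 1)` are normal (first part of the result), and there are explicit normal
numbers (Adler, Keane and Smorodinsky); the condition on `α` does not depend on the families. The number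
of convergents with `q_k ≤ X` is `O(log X)`, so that these are very few twists; the integers
`u p_k + v q_k` are not squarefree in general. Special cases are the twists by the numerators and by the
denominators of the convergents of one normal number.

The last case in the definition of `GoodTwist` occurs for `g = (z ^ 2 + 51, z ^ 2 - 1)`,
`h = (z ^ 2 + 1) (z ^ 2 - 17) (z ^ 2 + 17)`, `b = 1`, and then there are points over the real numbers and
over all the `p`-adic fields on all the curves `C a`.

Proof. A set of integral vectors is pronull if its closure in the product of the `ℤ_p ^ 2` over the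
primes `p` which do not divide `M` has Haar measure zero, for all `M`. For a class which is not
persistent there are a positive proportion of primes `p` (Chebotarev's theorem) such that no zero-cycle
on `C a` over `ℚ_p` has this class if `p` divides `a` exactly once (local analysis of helper925). The set
of the vectors `c` for which no such prime divides `λ(c)` exactly once is pronull (helper676, with the
engine of helper24, helper300 and helper765). The convergents of a normal number are in a given pronull
set only for indices of density zero (project CF of helper53: the extensions of the Gauss map by the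
finite groups generated by the matrices of continued fractions modulo `q` are ergodic, and frequencies
in the extension are controlled by blocks of partial quotients; leaves by helpers 51, 279, 588, 614, 645
and 951). There are countably many `(b, g, h)` and `λ`, and a diagonal argument gives one set `E`.
-/

set_option autoImplicit false

namespace Pool.Agent.Results.MP_f80667_ag.ConvergentsOfNormalNumbers

open Polynomial MeasureTheory Filter Topology Pool.Agent.R925.FD Pool.Agent.R925.ZC
open Pool.Agent.Results.MP_f80667_ag.DegreeZeroComplexOfTwists (Admissible)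
open Pool.Agent.Results.MP_f80667_ag.MetricSequences (Good GoodTwist ThreeSquares goodTwist_of)

/-- The Gauss map `x ↦ 1/x - ⌊1/x⌋`. -/
noncomputable def gaussMap (x : ℝ) : ℝ := Int.fract x⁻¹

/-- The real number `α` is continued fraction normal: it is an irrational number in `(0, 1)`, and its
orbit under the Gauss map is distributed according to the Gauss measure. -/
def IsNormal (α : ℝ) : Prop :=
  Irrational α ∧ α ∈ Set.Ioo (0 : ℝ) 1 ∧ ∀ t : ℝ, 0 ≤ t → t ≤ 1 →
    Tendsto (fun N : ℕ => (({n : ℕ | n < N ∧ gaussMap^[n] α < t}.ncard : ℕ) : ℝ) / (N : ℝ)) atTop
      (𝓝 (Real.log (1 + t) / Real.log 2))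

/-- The partial quotients: `α = [0; quotient α 0, quotient α 1, …]`. -/
noncomputable def quotient (α : ℝ) (n : ℕ) : ℕ := ⌊(gaussMap^[n] α)⁻¹⌋₊

/-- The numerators and denominators `((p, q), (p', q'))` of the convergents number `n - 1` and `n`. -/
noncomputable def consecutive (α : ℝ) : ℕ → (ℤ × ℤ) × (ℤ × ℤ)
  | 0 => ((1, 0), (0, 1))
  | n + 1 => ((consecutive α n).2,
      ((quotient α n : ℤ) * (consecutive α n).2.1 + (consecutive α n).1.1,
        (quotient α n : ℤ) * (consecutive α n).2.2 + (consecutive α n).1.2))

/-- The vector `(p, q)` of numerator and denominator of the convergent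
`p / q = [0; quotient α 0, …, quotient α (n - 1)]` of `α`. -/
noncomputable def convergent (α : ℝ) (n : ℕ) : Fin 2 → ℤ :=
  ![(consecutive α n).2.1, (consecutive α n).2.2]

theorem consecutive_eq (α : ℝ) (n : ℕ) :
    consecutive α n = Pool.Agent.N53.CF.cv (Pool.Agent.W811.Stu.dig α) n := by
  induction n with
  | zero => rfl
  | succ n ih =>
    show ((consecutive α n).2,
      ((quotient α n : ℤ) * (consecutive α n).2.1 + (consecutive α n).1.1,
        (quotient α n : ℤ) * (consecutive α n).2.2 + (consecutive α n).1.2)) = _
    rw [ih]
    rfl

/-- The exceptional sets are pronull. -/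
theorem proNull_exceptional (lam : Fin 2 → ℤ) (hlam : lam ≠ 0)
    (D : Σ r : ℕ, ℤ × (Fin r → ℤ[X]) × ℤ[X]) :
    Pool.Agent.N24.RW.ProNull {c : Fin 2 → ℤ | ¬ (Admissible D.2.1 D.2.2.1 D.2.2.2 →
      GoodTwist D.2.1 D.2.2.1 D.2.2.2 (∑ i, lam i * c i))} := by
  classical
  have hcp := Pool.Agent.N676.OR.countable_poly
  refine (Pool.Agent.N676.OR.orbit_principle (𝔇 := Σ r : ℕ, ℤ × (Fin r → ℤ[X]) × ℤ[X])
    (fun D a => Admissible D.2.1 D.2.2.1 D.2.2.2 → GoodTwist D.2.1 D.2.2.1 D.2.2.2 a) ?_).1
    (Fin 2) lam hlam D
  rintro ⟨r, b, g, h⟩
  by_cases hA : Admissible b g h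
  · obtain ⟨PP, h1, h2, h3⟩ := goodTwist_of hA
    exact ⟨PP, h1, h2, fun a ha _ => h3 a ha⟩
  · exact ⟨∅, Set.finite_empty, fun P hP => absurd hP (Set.notMem_empty _),
      fun a _ hA' => absurd hA' hA⟩

theorem result : (∀ᵐ α ∂(volume.restrict (Set.Ioo (0 : ℝ) 1)), IsNormal α) ∧
    (∀ α : ℝ, IsNormal α → Good (convergent α)) ∧
    Admissible 1 exg exh ∧ ThreeSquares exg exh ∧
    ∀ (m : ℕ) (a : ℤ), m ≠ 0 → Nonempty (Point m 1 a exg exh ℝ) ∧
      ∀ (p : ℕ) [Fact p.Prime], Nonempty (Point m 1 a exg exh ℚ_[p]) := by
  classical
  refine ⟨Pool.Agent.N53.CF.t_TYP, fun α hα => ?_,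
    Pool.Agent.Results.MP_f80667_ag.MetricSequences.result.2⟩
  have h1 : convergent α = Pool.Agent.N53.CF.cvg (Pool.Agent.W811.Stu.dig α) := by
    funext n
    unfold convergent Pool.Agent.N53.CF.cvg
    rw [consecutive_eq]
  have h2 : Pool.Agent.N53.CF.CFNormal α := hα
  have hcp := Pool.Agent.N676.OR.countable_poly
  obtain ⟨E, e1, e2⟩ := Pool.Agent.N18.KM.one_set
    (κ := (Σ r : ℕ, ℤ × (Fin r → ℤ[X]) × ℤ[X]) × {lam : Fin 2 → ℤ // lam ≠ 0}) (convergent α)
    (fun x => {c : Fin 2 → ℤ | ¬ (Admissible x.1.2.1 x.1.2.2.1 x.1.2.2.2 →
      GoodTwist x.1.2.1 x.1.2.2.1 x.1.2.2.2 (∑ i, x.2.1 i * c i))}) fun x => by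
      rw [h1]
      exact Pool.Agent.N53.CF.main _ (proNull_exceptional x.2.1 x.2.2 x.1) α h2
  refine ⟨E, e1, fun r b g h hA lam hlam => (e2 (⟨r, b, g, h⟩, ⟨lam, hlam⟩)).subset ?_⟩
  rintro x ⟨hx, hx'⟩
  exact ⟨hx, fun hgood => hx' (hgood hA)⟩

end Pool.Agent.Results.MP_f80667_ag.ConvergentsOfNormalNumbers
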