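import Pool.Agent.L5helper14.FDC.Dig
import Pool.Agent.N676.OR.Diag
import Pool.Agent.Results.MP_f80667_ag.MetricSequences

/-!
# Zero-cycles of degree zero on twists of cyclic coverings, for twists obtained from arbitrary integers by
# changing few randomly chosen digits

Let `β y ^ 2 = ∏ k, G k (z, w)` be a hyperelliptic curve over `ℚ`, where the `G k` are the homogenisations
of polynomials `g k` with integral coefficients, of even degrees, pairwise coprime, and let `h` be a
nonconstant polynomial with integral coefficients, coprime to the `g k` (`Admissible`). The integer `a` has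
the property `GoodTwist` (starting result `MetricSequences`) if for all even `m ∣ deg h`, `m > 0`, and all
adelic zero-cycles `(z_v)` of even degree (for instance of degree zero) on the twisted covering

  `C a : β y ^ 2 = ∏ k, G k (z, w)`, `a x ^ m = H (z, w)`,

which are orthogonal to the quaternion algebras `(G k, e)`: the values `G k (z_v)` modulo squares are those
of a persistent family of squarefree integers; they are the values of a zero-cycle over `ℚ` of degree zero if
the zeros of `h` are one or two rational numbers and there are rational points over them; and they are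
trivial in two other cases. So the complex for zero-cycles of degree zero modulo 2 is exact up to elements
of the kernels of the maps `(G k)` for these twists, without assumptions on Tate-Shafarevich groups.

**Changing few digits.** Let `ι` be a finite set, and for `l ∈ ι` let `b l ≥ 2` be a base, `K l` and `r l`
numbers with `ρ ≤ r l ≤ K l / 2`. Choose `r l` of the `K l` positions `0, …, K l - 1` at random, for
different `l` independently. Replace the digits of a natural number `N l < (b l) ^ (K l)` at the chosen
positions by other digits (`change`), or add to an integer `c l` a nonzero multiple `D l i (b l) ^ i`,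
`|D l i| < b l`, for each chosen position `i`; for example (`c l = 0`, `D l i = 1`) the result is a number
with exactly `r l` digits `1`, and the other digits are `0`.

**Theorem.** Let the bases `b l ≥ 2` be given. There are sets `E 0, E 1, …` of vectors in `ℤ ^ ι` and
proportions `ω ρ` which tend to zero, `ρ → ∞`, such that (`Rare`)
* for ALL `K l`, `r l` with `ρ ≤ r l ≤ K l / 2`, ALL `N l`, and ALL new digits (ALL `c l`, `D l i`) at most
  the proportion `ω ρ` of the choices of the positions gives a vector in `E ρ`;
* for ALL families `(β, g, h)` and ALL linear forms `λ ≠ 0` with integral coefficients the twists by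
  `a = λ(c)` have the property `GoodTwist` for all vectors `c` which are not in `E ρ`, if `ρ` is large.

So near every integer `N`, in the sense of the Hamming distance of the digits, most integers at distance `r`
are good twists, for all families of curves, if `r` is large, uniformly in `N` and in the number `K` of the
digits, which may be arbitrarily large in comparison with `r`: no interval of the integers, no residue
classes and no averages over all integers up to `X` are involved. The starting results are about 100% of
the squarefree `|a| ≤ X`, random orbits of matrices, and metric sequences.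

Proof. A set of integral vectors is pronull if its closure in the product of the `ℤ_p ^ ι` over the
primes `p` which do not divide `M` has Haar measure zero, for all `M`. For a class which is not
persistent there are a positive proportion of primes `p` such that no zero-cycle on `C a` over `ℚ_p` has
this class if `p` divides `a` exactly once (local analysis of helper925), and the set of the vectors `c`
for which no such prime divides `λ(c)` exactly once is pronull (helper676, with the engine of helper24,
helper300 and helper765). The new part is the equidistribution of changed digits modulo fixed integers `Q`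
which are prime to `(b l)²!`: the exponential sums are elementary symmetric functions of roots of unity in
which neighbouring ones are different, because `D' b - D` is not divisible by any prime `> b ^ 2`, and the
bound of helper894 for symmetric functions applies (`Pool.Agent.L5helper14.FDC`).
-/

set_option autoImplicit false

namespace Pool.Agent.Results.MP_f80667_ag.FewDigitChanges

open Polynomial Filter Topology
open Pool.Agent.L5helper14.FDC (Rare rare_family)
open Pool.Agent.Results.MP_f80667_ag.DegreeZeroComplexOfTwists (Admissible)
open Pool.Agent.Results.MP_f80667_ag.MetricSequences (GoodTwist goodTwist_of)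

/-- The exceptional sets are pronull. -/
theorem proNull_exceptional {ι : Type} [Fintype ι] (lam : ι → ℤ) (hlam : lam ≠ 0)
    (D : Σ r : ℕ, ℤ × (Fin r → ℤ[X]) × ℤ[X]) :
    Pool.Agent.N24.RW.ProNull {c : ι → ℤ | ¬ (Admissible D.2.1 D.2.2.1 D.2.2.2 →
      GoodTwist D.2.1 D.2.2.1 D.2.2.2 (∑ i, lam i * c i))} := by
  classical
  have hcp := Pool.Agent.N676.OR.countable_poly
  refine (Pool.Agent.N676.OR.orbit_principle (𝔇 := Σ r : ℕ, ℤ × (Fin r → ℤ[X]) × ℤ[X])
    (fun D a => Admissible D.2.1 D.2.2.1 D.2.2.2 → GoodTwist D.2.1 D.2.2.1 D.2.2.2 a) ?_).1
    ι lam hlam D
  rintro ⟨r, b, g, h⟩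
  by_cases hA : Admissible b g h
  · obtain ⟨PP, h1, h2, h3⟩ := goodTwist_of hA
    exact ⟨PP, h1, h2, fun a ha _ => h3 a ha⟩
  · exact ⟨∅, Set.finite_empty, fun P hP => absurd hP (Set.notMem_empty _),
      fun a _ hA' => absurd hA' hA⟩

theorem result {ι : Type} [Fintype ι] [DecidableEq ι] (b : ι → ℕ) (hb : ∀ l, 2 ≤ b l) :
    ∃ (E : ℕ → Set (ι → ℤ)) (ω : ℕ → ℝ), Rare b E ω ∧
      ∀ (r : ℕ) (β : ℤ) (g : Fin r → ℤ[X]) (h : ℤ[X]), Admissible β g h →
        ∀ lam : ι → ℤ, lam ≠ 0 → ∃ ρ₀ : ℕ, ∀ ρ, ρ₀ ≤ ρ → ∀ c : ι → ℤ, c ∉ E ρ →
          GoodTwist β g h (∑ l, lam l * c l) := by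
  classical
  have hcp := Pool.Agent.N676.OR.countable_poly
  obtain ⟨E, ω, h1, h2⟩ := rare_family
    (κ := (Σ r : ℕ, ℤ × (Fin r → ℤ[X]) × ℤ[X]) × {lam : ι → ℤ // lam ≠ 0}) b hb
    (fun x => {c : ι → ℤ | ¬ (Admissible x.1.2.1 x.1.2.2.1 x.1.2.2.2 →
      GoodTwist x.1.2.1 x.1.2.2.1 x.1.2.2.2 (∑ i, x.2.1 i * c i))})
    (fun A B hA hB => Pool.Agent.N24.RW.Clo.union hA hB)
    fun x => proNull_exceptional x.2.1 x.2.2 x.1
  refine ⟨E, ω, h1, fun r β g h hA lam hlam => ?_⟩
  obtain ⟨ρ₀, hρ₀⟩ := h2 (⟨r, β, g, h⟩, ⟨lam, hlam⟩)
  refine ⟨ρ₀, fun ρ hρ c hc => ?_⟩
  by_contra hbad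
  exact hc (hρ₀ ρ hρ fun hgood => hbad (hgood hA))

end Pool.Agent.Results.MP_f80667_ag.FewDigitChanges
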