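import Pool.Agent.L5helper14.FDC.Ind
import Pool.Agent.N676.OR.Diag
import Pool.Agent.Results.MP_f80667_ag.MetricSequences

/-!
# Zero-cycles of degree zero on twists of cyclic coverings, for twists by palindromes and by integers with
# prescribed sets of digits, in all bases

Let `β y ^ 2 = ∏ k, G k (z, w)` be a hyperelliptic curve over `ℚ`, where the `G k` are the homogenisations
of polynomials `g k` with integral coefficients, of even degrees, pairwise coprime, and let `h` be a
nonconstant polynomial with integral coefficients, coprime to the `g k` (`Admissible`). The integer `a` has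
the property `GoodTwist` (starting result `MetricSequences`) if for all even `m ∣ deg h`, `m > 0`, and all
adelic zero-cycles `(z_v)` of even degree (for instance of degree zero) on the twisted covering

  `C a : β y ^ 2 = ∏ k, G k (z, w)`, `a x ^ m = H (z, w)`,

which are orthogonal to the quaternion algebras `(G k, e)`: the values `G k (z_v)` modulo squares are those
of a persistent family of squarefree integers; they are the values of a zero-cycle over `ℚ` of degree zero if
the zeros of `h` are one or two rational numbers and there are rational points over them; and they are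
trivial in two other cases. So the complex for zero-cycles of degree zero modulo 2 is exact up to elements
of the kernels of the maps `(G k)` for these twists, without assumptions on Tate-Shafarevich groups.

**Sparse sets.** Let `b ≥ 2` be a base and `g ≥ 1`. `Sparse b g ρ S` means that `S` is one of the following
finite sets of natural numbers.
* The numbers `m < b ^ K`, `K ≥ ρ`, whose digit number `i` is in `D i` for all `i < K` (`numbers b K D`). The
  nonempty sets `D i` of digits are arbitrary, but in each block of `g` consecutive positions at least one of
  them has at least two members (`Free b g K D`). For example all digits are `0` or `1`; or all digits are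
  prescribed except every `g`-th one, for which there are two possibilities (`2 ^ (K / g)` numbers).
* The palindromes with `n ≥ ρ` digits in base `b`.

**Theorem.** Let `ι` be a finite set. There are sets `E 0, E 1, …` of vectors in `ℤ ^ ι` such that (`RareAll`)
* for all bases `b l ≥ 2`, `g ≥ 1` and `ε > 0`, for all large `ρ`, ALL sets `S l` with
  `Sparse (b l) g ρ (S l)` and ALL integers `c l`, at most the proportion `ε` of the vectors `c + x`, `x l ∈ S l`,
  are in `E ρ`;
* for ALL families `(β, g, h)` and ALL linear forms `λ ≠ 0` with integral coefficients the twists by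
  `a = λ(c)` have the property `GoodTwist` for all vectors `c` which are not in `E ρ`, if `ρ` is large.

So (`ι` with one member) 100% of the palindromes in every base, and 100% of the integers with any prescribed
sets of digits, with free digits in bounded distances, are good twists for all families of curves; and (two
members) for instance 100% of the sums of a palindrome in base 2 and a palindrome in base 3. The exceptional
sets `E ρ` do not depend on the curves, on the bases or on the sets of digits, and all bounds are uniform in
the shift `c`. The starting results are about 100% of the squarefree `|a| ≤ X`, random orbits of matrices,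
and metric sequences.

Proof. A set of integral vectors is pronull if its closure in the product of the `ℤ_p ^ ι` over the
primes `p` which do not divide `M` has Haar measure zero, for all `M`. For a class which is not
persistent there are a positive proportion of primes `p` such that no zero-cycle on `C a` over `ℚ_p` has
this class if `p` divides `a` exactly once (local analysis of helper925), and the set of the vectors `c`
for which no such prime divides `λ(c)` exactly once is pronull (helper676, with the engine of helper24,
helper300 and helper765). The new part (`Pool.Agent.L5helper14.FDC.Ind`) is the equidistribution of the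
members of the sparse sets modulo fixed integers `Q` which are prime to `(b l)²!`, uniformly in the sets: the
exponential sums are products over the positions. For palindromes the weights of the positions `i` and
`n - 1 - i` cannot vanish together with those of the next pair modulo a divisor of `Q`, as `b² - 1` is prime
to `Q`.
-/

set_option autoImplicit false

namespace Pool.Agent.Results.MP_f80667_ag.PrescribedDigits

open Polynomial Filter Topology
open Pool.Agent.L5helper14.FDC (RareAll rareAll_family)
open Pool.Agent.Results.MP_f80667_ag.DegreeZeroComplexOfTwists (Admissible)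
open Pool.Agent.Results.MP_f80667_ag.MetricSequences (GoodTwist goodTwist_of)

/-- The exceptional sets are pronull. -/
theorem proNull_exceptional {ι : Type} [Fintype ι] (lam : ι → ℤ) (hlam : lam ≠ 0)
    (D : Σ r : ℕ, ℤ × (Fin r → ℤ[X]) × ℤ[X]) :
    Pool.Agent.N24.RW.ProNull {c : ι → ℤ | ¬ (Admissible D.2.1 D.2.2.1 D.2.2.2 →
      GoodTwist D.2.1 D.2.2.1 D.2.2.2 (∑ i, lam i * c i))} := by
  classical
  have hcp := Pool.Agent.N676.OR.countable_poly
  refine (Pool.Agent.N676.OR.orbit_principle (𝔇 := Σ r : ℕ, ℤ × (Fin r → ℤ[X]) × ℤ[X])
    (fun D a => Admissible D.2.1 D.2.2.1 D.2.2.2 → GoodTwist D.2.1 D.2.2.1 D.2.2.2 a) ?_).1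
    ι lam hlam D
  rintro ⟨r, b, g, h⟩
  by_cases hA : Admissible b g h
  · obtain ⟨PP, h1, h2, h3⟩ := goodTwist_of hA
    exact ⟨PP, h1, h2, fun a ha _ => h3 a ha⟩
  · exact ⟨∅, Set.finite_empty, fun P hP => absurd hP (Set.notMem_empty _),
      fun a _ hA' => absurd hA' hA⟩

theorem result {ι : Type} [Fintype ι] [DecidableEq ι] :
    ∃ E : ℕ → Set (ι → ℤ), RareAll E ∧
      ∀ (r : ℕ) (β : ℤ) (g : Fin r → ℤ[X]) (h : ℤ[X]), Admissible β g h →
        ∀ lam : ι → ℤ, lam ≠ 0 → ∃ ρ₀ : ℕ, ∀ ρ, ρ₀ ≤ ρ → ∀ c : ι → ℤ, c ∉ E ρ →
          GoodTwist β g h (∑ l, lam l * c l) := by
  classical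
  have hcp := Pool.Agent.N676.OR.countable_poly
  obtain ⟨E, h1, h2⟩ := rareAll_family
    (κ := (Σ r : ℕ, ℤ × (Fin r → ℤ[X]) × ℤ[X]) × {lam : ι → ℤ // lam ≠ 0})
    (fun x => {c : ι → ℤ | ¬ (Admissible x.1.2.1 x.1.2.2.1 x.1.2.2.2 →
      GoodTwist x.1.2.1 x.1.2.2.1 x.1.2.2.2 (∑ i, x.2.1 i * c i))})
    (fun A B hA hB => Pool.Agent.N24.RW.Clo.union hA hB)
    fun x => proNull_exceptional x.2.1 x.2.2 x.1
  refine ⟨E, h1, fun r β g h hA lam hlam => ?_⟩
  obtain ⟨ρ₀, hρ₀⟩ := h2 (⟨r, β, g, h⟩, ⟨lam, hlam⟩)
  refine ⟨ρ₀, fun ρ hρ c hc => ?_⟩
  by_contra hbad
  exact hc (hρ₀ ρ hρ fun hgood => hbad (hgood hA))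

end Pool.Agent.Results.MP_f80667_ag.PrescribedDigits
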