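import Pool.Agent.N18.RV.Core
import Pool.Agent.N384.VF.Ex
import Pool.Agent.N676.OR.Diag
import Pool.Agent.Results.MP_f80667_ag.MetricSequences

/-!
# Zero-cycles of degree zero on twists of cyclic coverings, for almost all members of thin families of
# residues

Let `β y ^ 2 = ∏ k, G k (z, w)` be a hyperelliptic curve over `ℚ`, where the `G k` are the homogenisations
of polynomials `g k` with integral coefficients, of even degrees, pairwise coprime, and let `h` be a
nonconstant polynomial with integral coefficients, coprime to the `g k` (`Admissible`). The integer `a` has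
the property `GoodTwist` (starting result `MetricSequences`) if for all even `m ∣ deg h`, `m > 0`, and all
adelic zero-cycles `(z_v)` of even degree (for instance of degree zero) on the twisted covering

  `C a : β y ^ 2 = ∏ k, G k (z, w)`, `a x ^ m = H (z, w)`,

which are orthogonal to the quaternion algebras `(G k, e)`: the values `G k (z_v)` modulo squares are those
of a persistent family of squarefree integers; they are the values of a zero-cycle over `ℚ` of degree zero if
the zeros of `h` are one or two rational numbers and there are rational points over them; and they are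
trivial in two other cases. So the complex for zero-cycles of degree zero modulo 2 is exact up to elements
of the kernels of the maps `(G k)` for these twists, without assumptions on Tate-Shafarevich groups.

**Families of vectors.** `s` is a finite set, `y_x`, `x ∈ s`, are vectors of residues modulo some `q`, such that
`|∑ x ∈ s, e(f·y_x / q)| ≤ |s| / (Z (42 + 3 log q) ^ r)` for all vectors `f ≠ 0` modulo `q`, where `r` is the
number of the coordinates and `Z ≤ q` (`Small q Z s y`). `vec y c₀ x` is the integral vector `c₀ + y_x`, where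
`0 ≤ y_x < q` are the least residues and `c₀` is any integral vector. For instance `r = 1`, and `c₀ + y_x` runs
through thin sets of integers between `c₀` and `c₀ + q`.

**Theorem (1).** There are sets `E Z` of integral vectors, one for each real number `Z`, and `ω Z → 0` for
`Z → ∞`, such that for all families of vectors as above, of arbitrary size, at most `ω Z |s|` of the vectors
`c₀ + y_x` are in `E Z`; and for **all** families of curves `(β, g, h)` and all linear forms `λ ≠ 0` with
integral coefficients there is `K` such that for all `Z ≥ K` and all vectors `v` outside `E Z` the twist by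
`a = λ(v)` has the property `GoodTwist`.

So the set `E Z` depends neither on the family of vectors nor on the family of curves.

**Examples.** (2) Products of families of residues. (3) Families of residues modulo primes `p`: the quotients
`j / r` of the integers `0 ≤ j < S` by the primes `r ≤ R` (of which there are only `(log p) ^ C`); the cosets
of all subgroups of the multiplicative group of an order of at least `5 p ^ (3/8) K ^ 3`; the residues
`a b + g(a) + k(b)`, `a ∈ A`, `b ∈ B`. (4) Polynomial curves `(f_j(n))_j` modulo `p`, `0 ≤ n < x`, with only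
about `p ^ (1 / d)` members. In all the examples the upper bound `|s| / K` for the Fourier coefficients holds
for all `K ≥ 1` in a range that includes the powers of `log p`.

From Mathlib: `ZMod.stdAddChar`: the additive character `j ↦ exp (2 π i j / q)` of the integers modulo `q`; `ZMod.val`: the
least residue; `Fintype.piFinset`: the product of finite sets.

The proof: the exceptional vectors are contained in pronull sets: their images modulo suitable integers `Q`
have as few elements as one likes, compared to `Q ^ r` (local analysis of helper925, helper676, with the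
engine of helpers 24, 300 and 765). The families of residues with small Fourier coefficients are well
distributed modulo `Q` (helper384, helper18).
-/

set_option autoImplicit false

namespace Pool.Agent.Results.MP_f80667_ag.ResidueVectors

open Filter Topology
open Pool.Agent.Results.MP_f80667_ag.DegreeZeroComplexOfTwists (Admissible)
open Pool.Agent.Results.MP_f80667_ag.MetricSequences (GoodTwist goodTwist_of)

/-- The Fourier coefficients of the vectors of residues `y x`, `x ∈ s`, modulo `q` at the nonzero frequencies are at most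
`η` times the number of the vectors: `|∑ x ∈ s, e(f·y_x / q)| ≤ η |s|` for all vectors `f ≠ 0` modulo `q`. -/
def Flat {τ ι : Type} [Fintype ι] (q : ℕ) [NeZero q] (η : ℝ) (s : Finset τ) (y : τ → ι → ZMod q) : Prop :=
  ∀ f : ι → ZMod q, f ≠ 0 → ‖∑ x ∈ s, (ZMod.stdAddChar (∑ j, f j * y x j) : ℂ)‖ ≤ η * s.card

/-- The same for residues (vectors with one coordinate). -/
def Flat1 {τ : Type} (q : ℕ) [NeZero q] (η : ℝ) (s : Finset τ) (y : τ → ZMod q) : Prop :=
  ∀ f : ZMod q, f ≠ 0 → ‖∑ x ∈ s, (ZMod.stdAddChar (f * y x) : ℂ)‖ ≤ η * s.card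

/-- `Z ≤ q`, and the Fourier coefficients at the nonzero frequencies are at most `|s| / (Z (42 + 3 log q) ^ r)`, where `r` is
the number of the coordinates. -/
def Small {τ ι : Type} [Fintype ι] (q : ℕ) [NeZero q] (Z : ℝ) (s : Finset τ) (y : τ → ι → ZMod q) : Prop :=
  Z ≤ q ∧ Flat q (1 / (Z * (42 + 3 * Real.log q) ^ Fintype.card ι)) s y

/-- The integral vector `c₀ + y_x`, with the least residues `0 ≤ y_x < q`. -/
def vec {τ ι : Type} {q : ℕ} (y : τ → ι → ZMod q) (c₀ : ι → ℤ) (x : τ) (j : ι) : ℤ := c₀ j + ((y x j).val : ℕ)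

/-- The exceptional sets are pronull. -/
theorem proNull_exceptional {ι : Type} [Fintype ι] (lam : ι → ℤ) (hlam : lam ≠ 0)
    (D : Σ r : ℕ, ℤ × (Fin r → Polynomial ℤ) × Polynomial ℤ) :
    Pool.Agent.N24.RW.ProNull {c : ι → ℤ | ¬ (Admissible D.2.1 D.2.2.1 D.2.2.2 →
      GoodTwist D.2.1 D.2.2.1 D.2.2.2 (∑ i, lam i * c i))} := by
  classical
  have hcp := Pool.Agent.N676.OR.countable_poly
  refine (Pool.Agent.N676.OR.orbit_principle (𝔇 := Σ r : ℕ, ℤ × (Fin r → Polynomial ℤ) × Polynomial ℤ)
    (fun D a => Admissible D.2.1 D.2.2.1 D.2.2.2 → GoodTwist D.2.1 D.2.2.1 D.2.2.2 a) ?_).1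
    ι lam hlam D
  rintro ⟨r, b, g, h⟩
  by_cases hA : Admissible b g h
  · obtain ⟨PP, h1, h2, h3⟩ := goodTwist_of hA
    exact ⟨PP, h1, h2, fun a ha _ => h3 a ha⟩
  · exact ⟨∅, Set.finite_empty, fun P hP => absurd hP (Set.notMem_empty _),
      fun a _ hA' => absurd hA' hA⟩

/-- One family of exceptional sets for countably many pronull conditions. -/
theorem one_family {ι κ : Type} [Fintype ι] [DecidableEq ι] [Countable κ] (B : κ → Set (ι → ℤ))
    (hB : ∀ x, Pool.Agent.N24.RW.ProNull (B x)) :
    ∃ (E : ℝ → Set (ι → ℤ)) (ω : ℝ → ℝ), Tendsto ω atTop (𝓝 0) ∧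
      (∀ D, ∃ K : ℝ, ∀ Z, K ≤ Z → B D ⊆ E Z) ∧
      ∀ (τ : Type) (q : ℕ) [NeZero q] (s : Finset τ) (y : τ → ι → ZMod q) (Z : ℝ), Small q Z s y →
        ∀ c₀ : ι → ℤ, ({x : τ | x ∈ s ∧ vec y c₀ x ∈ E Z}.ncard : ℝ) ≤ ω Z * s.card := by
  classical
  rcases isEmpty_or_nonempty κ with hκ | hκ
  · exact ⟨fun _ => ∅, fun _ => 0, tendsto_const_nhds, fun D => (hκ.false D).elim,
      fun τ q _ s y Z _ c₀ => by simp⟩
  obtain ⟨f, hf⟩ := exists_surjective_nat κ
  let C : ℕ → Set (ι → ℤ) := fun k => ⋃ j ∈ Finset.range (k + 1), B (f j)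
  have hmono : Monotone C := by
    intro k k' hkk
    exact Set.biUnion_subset_biUnion_left fun j hj => by
      rw [Finset.mem_coe, Finset.mem_range] at *
      omega
  have hsucc : ∀ k, C (k + 1) = C k ∪ B (f (k + 1)) := by
    intro k
    change (⋃ j ∈ Finset.range (k + 1 + 1), B (f j)) = _
    rw [Finset.range_add_one, Finset.set_biUnion_insert, Set.union_comm]
  have hzero : C 0 = B (f 0) := by
    change (⋃ j ∈ Finset.range (0 + 1), B (f j)) = _
    simp
  have hn : ∀ k, Pool.Agent.N24.RW.ProNull (C k) := by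
    intro k
    induction k with
    | zero => rw [hzero]; exact hB _
    | succ k ih => rw [hsucc]; exact Pool.Agent.N24.RW.Clo.union ih (hB _)
  obtain ⟨E, ω, h1, h2, h3⟩ := Pool.Agent.N18.RV.diag C hmono hn
  refine ⟨E, ω, h1, fun D => ?_, fun τ q _ s y Z hs c₀ => h3 τ q s y Z ⟨hs.1, hs.2⟩ c₀⟩
  obtain ⟨k, rfl⟩ := hf D
  obtain ⟨K, hK⟩ := h2 k
  refine ⟨K, fun Z hZ => Set.Subset.trans ?_ (hK Z hZ)⟩
  intro c hc
  exact Set.mem_biUnion (x := k) (Finset.mem_coe.2 (Finset.mem_range.2 (by omega))) hc

/-- **(1)** There are sets `E Z` of integral vectors and `ω Z → 0` for `Z → ∞`, such that for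
all families of vectors `y_x`, `x ∈ s`, of residues modulo any `q` with Fourier coefficients at most
`|s| / (Z (42 + 3 log q) ^ r)` at all nonzero frequencies, `Z ≤ q`, and all integral vectors `c₀`, at most `ω Z |s|` of the
vectors `c₀ + y_x` are in `E Z`; and for all families of curves `β`, `g`, `h` and all linear forms `λ ≠ 0` there is `K` such
that the twist by `λ(v)` has the property `GoodTwist` for all `Z ≥ K` and all integral vectors `v` not in `E Z`.

**(2)** Products: if the residues `y_j(t)`, `t ∈ s_j`, have Fourier coefficients at most `η |s_j|` for each coordinate `j`, then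
the product family of vectors `(y_j(g_j))_j`, `g_j ∈ s_j`, has Fourier coefficients at most `η` times the number of its members.

**(3)** Families of residues modulo primes `p` with Fourier coefficients at most `|s| / K`, `K ≥ 1` arbitrary: the quotients
`j / r` of the integers `0 ≤ j < S` by the primes `r ≤ R`, if `K log ^ 4 p ≤ R < p` and `R ^ 2 ≤ S` (and `p` is large); the cosets
of all subgroups of the multiplicative group of an order of at least `5 p ^ (3/8) K ^ 3`; the residues `a b + g(a) + k(b)`,
`a ∈ A`, `b ∈ B`, for arbitrary sets with `|A| |B| ≥ p K ^ 2` and arbitrary functions `g` and `k`.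

**(4)** Polynomial curves: for `1 ≤ d ≤ D` there is `C` such that for all primes `p` and all integral polynomials `f_j` of
pairwise distinct degrees between `d` and `D` whose leading coefficients are not divisible by `p`, the vectors `(f_j(n))_j`
modulo `p`, `0 ≤ n < x`, have Fourier coefficients at most `x / K` for all `K ≥ 1` with `C K ^ C ≤ p` and
`C K ^ C p ≤ x ^ d`. (So there are such families with only about `p ^ (1 / d)` members.) -/
theorem result :
    (∀ (ι : Type) [Fintype ι] [DecidableEq ι],
      ∃ (E : ℝ → Set (ι → ℤ)) (ω : ℝ → ℝ), Tendsto ω atTop (𝓝 0) ∧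
        (∀ (τ : Type) (q : ℕ) [NeZero q] (s : Finset τ) (y : τ → ι → ZMod q) (Z : ℝ), Small q Z s y → ∀ c₀ : ι → ℤ,
          ({x : τ | x ∈ s ∧ vec y c₀ x ∈ E Z}.ncard : ℝ) ≤ ω Z * s.card) ∧
        ∀ (r : ℕ) (β : ℤ) (g : Fin r → Polynomial ℤ) (h : Polynomial ℤ), Admissible β g h →
          ∀ lam : ι → ℤ, lam ≠ 0 → ∃ K : ℝ, ∀ Z : ℝ, K ≤ Z → ∀ v : ι → ℤ, v ∉ E Z →
            GoodTwist β g h (∑ l, lam l * v l)) ∧
    (∀ (ι : Type) [Fintype ι] [DecidableEq ι] (q : ℕ) [NeZero q] (η : ℝ) (τ : Type) (s : ι → Finset τ) (y : ι → τ → ZMod q),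
      (∀ j, Flat1 q η (s j) (y j)) → Flat q η (Fintype.piFinset s) (fun g j => y j (g j))) ∧
    (∃ P₀ : ℕ, ∀ p : ℕ, P₀ ≤ p → ∀ [Fact p.Prime] (K : ℝ), 1 ≤ K →
      (∀ R S : ℕ, K * Real.log p ^ 4 ≤ R → R < p → R ^ 2 ≤ S →
        Flat1 p (1 / K) (((Finset.Icc 1 R).filter Nat.Prime) ×ˢ Finset.range S)
          (fun z => ((z.2 : ℕ) : ZMod p) * ((z.1 : ℕ) : ZMod p)⁻¹)) ∧
      (∀ (H : Subgroup (ZMod p)ˣ) (s : Finset (ZMod p)ˣ), (∀ u, u ∈ s ↔ u ∈ H) →
        5 * (p : ℝ) ^ (3 / 8 : ℝ) * K ^ 3 ≤ s.card → ∀ x : ZMod p, x ≠ 0 → Flat1 p (1 / K) s (fun u => x * (u : ZMod p))) ∧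
      (∀ (A B : Finset (ZMod p)) (g k : ZMod p → ZMod p), (p : ℝ) * K ^ 2 ≤ A.card * B.card →
        Flat1 p (1 / K) (A ×ˢ B) (fun z => z.1 * z.2 + g z.1 + k z.2))) ∧
    (∀ d D : ℕ, 1 ≤ d → ∃ C : ℕ, ∀ (ι : Type) [Fintype ι] (p : ℕ) [Fact p.Prime] (f : ι → Polynomial ℤ),
      (∀ j, d ≤ (f j).natDegree ∧ (f j).natDegree ≤ D ∧ ¬ (p : ℤ) ∣ (f j).leadingCoeff) →
      Function.Injective (fun j => (f j).natDegree) → ∀ K : ℝ, 1 ≤ K → C * K ^ C ≤ p → ∀ x : ℕ,
      C * K ^ C * p ≤ (x : ℝ) ^ d → Flat p (1 / K) (Finset.range x) (fun n j => (((f j).eval (n : ℤ) : ℤ) : ZMod p))) := by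
  classical
  refine ⟨fun ι _ _ => ?_, fun ι _ _ q _ η τ s y h => Pool.Agent.N384.VF.flat_pi q η s y h, ?_,
    fun d D hd => Pool.Agent.N384.VF.flat_poly d D hd⟩
  · have hcp := Pool.Agent.N676.OR.countable_poly
    obtain ⟨E, ω, hω, h1, h2⟩ := one_family
      (κ := (Σ r : ℕ, ℤ × (Fin r → Polynomial ℤ) × Polynomial ℤ) × {lam : ι → ℤ // lam ≠ 0})
      (fun x => {c : ι → ℤ | ¬ (Admissible x.1.2.1 x.1.2.2.1 x.1.2.2.2 →
        GoodTwist x.1.2.1 x.1.2.2.1 x.1.2.2.2 (∑ i, x.2.1 i * c i))})
      fun x => proNull_exceptional x.2.1 x.2.2 x.1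
    refine ⟨E, ω, hω, h2, fun r β g h hA lam hlam => ?_⟩
    obtain ⟨K, hK⟩ := h1 (⟨r, β, g, h⟩, ⟨lam, hlam⟩)
    refine ⟨K, fun Z hZ v hv => ?_⟩
    by_contra hbad
    exact hv (hK Z hZ fun hgood => hbad (hgood hA))
  · obtain ⟨P₀, h0⟩ := Pool.Agent.N384.MQ.flatK_quot
    exact ⟨P₀, fun p hp _ K hK => ⟨fun R S => h0 p hp K hK R S,
      fun H s hs hc x hx => Pool.Agent.N384.MQ.flatK_coset p H s hs K hK hc x hx,
      fun A B g k hAB => Pool.Agent.N384.MQ.flatK_prod p A B g k K hK hAB⟩⟩

end Pool.Agent.Results.MP_f80667_ag.ResidueVectors
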